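import Mathlib
import Pool.Agent.H19.BallProd

set_option autoImplicit false

namespace Pool.Agent.Results.MP_bddfa7_gt.Product

open Set Pool.Agent.H19.BallProd

universe u v

/-- A ballean: a connected coarse structure on `X`. -/
structure Ballean (X : Type*) where
  ent : Set (Set (X × X))
  diag : diagonal X ∈ ent
  mono : ∀ E ∈ ent, ∀ F ⊆ E, F ∈ ent
  union : ∀ E ∈ ent, ∀ F ∈ ent, E ∪ F ∈ ent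
  inv : ∀ E ∈ ent, {p | (p.2, p.1) ∈ E} ∈ ent
  comp : ∀ E ∈ ent, ∀ F ∈ ent, {p | ∃ z, (p.1, z) ∈ E ∧ (z, p.2) ∈ F} ∈ ent
  conn : ∀ p, ∃ E ∈ ent, p ∈ E

/-- The ball `E[x]`. -/
def ball {X : Type*} (E : Set (X × X)) (x : X) : Set X := {y | (x, y) ∈ E}

/-- Bounded sets: subsets of balls. -/
def Ballean.Bounded {X : Type*} (𝒳 : Ballean X) (B : Set X) : Prop :=
  ∃ E ∈ 𝒳.ent, ∃ x, B ⊆ ball E x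

/-- The product ballean: its entourages are the subsets of the sets `E × F`. -/
def Ballean.prod {X Y : Type*} (𝒳 : Ballean X) (𝒴 : Ballean Y) : Ballean (X × Y) where
  ent := {G | ∃ E ∈ 𝒳.ent, ∃ F ∈ 𝒴.ent, G ⊆ {p | (p.1.1, p.2.1) ∈ E ∧ (p.1.2, p.2.2) ∈ F}}
  diag := ⟨_, 𝒳.diag, _, 𝒴.diag, fun _ h => ⟨congrArg Prod.fst h, congrArg Prod.snd h⟩⟩
  mono := fun _ ⟨E, hE, F, hF, h⟩ _ h' => ⟨E, hE, F, hF, h'.trans h⟩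
  union := fun _ ⟨E, hE, F, hF, h⟩ _ ⟨E', hE', F', hF', h'⟩ =>
    ⟨_, 𝒳.union E hE E' hE', _, 𝒴.union F hF F' hF', fun _ hp => hp.elim
      (fun hp => ⟨Or.inl (h hp).1, Or.inl (h hp).2⟩) fun hp => ⟨Or.inr (h' hp).1, Or.inr (h' hp).2⟩⟩
  inv := fun _ ⟨E, hE, F, hF, h⟩ => ⟨_, 𝒳.inv E hE, _, 𝒴.inv F hF, fun _ hp => h hp⟩
  comp := fun _ ⟨E, hE, F, hF, h⟩ _ ⟨E', hE', F', hF', h'⟩ =>
    ⟨_, 𝒳.comp E hE E' hE', _, 𝒴.comp F hF F' hF', fun _ ⟨z, h1, h2⟩ =>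
      ⟨⟨z.1, (h h1).1, (h' h2).1⟩, ⟨z.2, (h h1).2, (h' h2).2⟩⟩⟩
  conn := fun p =>
    let ⟨E, hE, h⟩ := 𝒳.conn (p.1.1, p.2.1)
    let ⟨F, hF, h'⟩ := 𝒴.conn (p.1.2, p.2.2)
    ⟨{p}, ⟨E, hE, F, hF, by rintro _ rfl; exact ⟨h, h'⟩⟩, rfl⟩

lemma ideal {X : Type*} (𝒳 : Ballean X) : IsIdeal (Bdd 𝒳.ent) where
  mono := fun h ⟨E, hE, x, hx⟩ => ⟨E, hE, x, h.trans hx⟩
  union := fun ⟨E, hE, x, hx⟩ ⟨E', hE', x', hx'⟩ =>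
    let ⟨F, hF, h⟩ := 𝒳.conn (x, x')
    ⟨_, 𝒳.union E hE _ (𝒳.comp F hF E' hE'), x, fun _ hy => hy.elim (fun hy => Or.inl (hx hy))
      fun hy => Or.inr ⟨x', h, hx' hy⟩⟩

lemma split {X Y : Type*} {𝒳 : Ballean X} {𝒴 : Ballean Y} {B : Set (X × Y)}
    (h : (𝒳.prod 𝒴).Bounded B) : ∃ B' D, 𝒳.Bounded B' ∧ 𝒴.Bounded D ∧ B ⊆ B' ×ˢ D :=
  let ⟨_, ⟨E, hE, F, hF, h⟩, a, ha⟩ := h
  ⟨_, _, ⟨E, hE, a.1, subset_rfl⟩, ⟨F, hF, a.2, subset_rfl⟩, fun _ hp => h (ha hp)⟩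

/-- Slowly oscillating functions. -/
def Ballean.SO {X : Type*} (𝒳 : Ballean X) (f : X → ℝ) : Prop :=
  ∀ E ∈ 𝒳.ent, ∀ ε > 0, ∃ B, 𝒳.Bounded B ∧
    ∀ x ∉ B, Metric.ediam (f '' ball E x) < ENNReal.ofReal ε

/-- So-bounded balleans. -/
def Ballean.SoBounded {X : Type*} (𝒳 : Ballean X) : Prop :=
  ∀ f : X → ℝ, 𝒳.SO f → ∃ B, 𝒳.Bounded B ∧ ∃ M, ∀ x ∉ B, |f x| ≤ M

lemma bd {X : Type*} {𝒳 : Ballean X} (h : 𝒳.SoBounded) (g : X → ℝ)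
    (hg : ∀ E ∈ 𝒳.ent, ∀ ε > 0, ∃ B, 𝒳.Bounded B ∧
      ∀ x ∉ B, ∀ a ∈ ball E x, ∀ b ∈ ball E x, |g a - g b| ≤ ε) :
    ∃ M, Bdd 𝒳.ent {x | M < |g x|} := by
  obtain ⟨B, hB, M, hM⟩ := h g fun E hE ε hε => by
    obtain ⟨B, hB, h⟩ := hg E hE (ε / 2) (half_pos hε)
    exact ⟨B, hB, fun x hx => (ediam_le (h x hx)).trans_lt
      ((ENNReal.ofReal_lt_ofReal_iff hε).mpr (half_lt_self hε))⟩
  exact ⟨M, (ideal 𝒳).mono (fun x hx => by_contra fun h => (hM x h).not_gt hx) hB⟩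

/-- The product of two so-bounded balleans is so-bounded. -/
theorem result {X : Type u} {Y : Type v} (𝒳 : Ballean X) (𝒴 : Ballean Y)
    (hX : 𝒳.SoBounded) (hY : 𝒴.SoBounded) : (𝒳.prod 𝒴).SoBounded := by
  intro f hf
  obtain ⟨-, ⟨-, -, ⟨x₀, y₀⟩, -⟩, -⟩ := hf _ (𝒳.prod 𝒴).diag 1 one_pos
  have : Nonempty X := ⟨x₀⟩
  have : Nonempty Y := ⟨y₀⟩
  have key : ∀ E ∈ 𝒳.ent, ∀ F ∈ 𝒴.ent, ∀ ε > 0, ∃ B D, 𝒳.Bounded B ∧ 𝒴.Bounded D ∧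
      ∀ x y, ¬ (x ∈ B ∧ y ∈ D) → ∀ p q : X × Y, (x, p.1) ∈ E → (y, p.2) ∈ F → (x, q.1) ∈ E →
        (y, q.2) ∈ F → |f p - f q| ≤ ε := by
    intro E hE F hF ε hε
    obtain ⟨B, hB, h⟩ := hf _ ⟨E, hE, F, hF, subset_rfl⟩ ε hε
    obtain ⟨B', D, h1, h2, h3⟩ := split hB
    exact ⟨B', D, h1, h2, fun x y hxy p q a b c d =>
      le_of_ediam hε.le (h (x, y) fun h => hxy (h3 h)).le ⟨a, b⟩ ⟨c, d⟩⟩
  obtain ⟨E, hE, F, hF, a, M, h⟩ := main' (ideal 𝒳) (ideal 𝒴) ⟨_, 𝒳.diag, fun _ => rfl⟩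
    ⟨_, 𝒴.diag, fun _ => rfl⟩ f
    (fun g hg => bd hX g fun E hE ε hε =>
      let ⟨B, _, hB, _, h⟩ := key E hE _ 𝒴.diag ε hε
      ⟨B, hB, fun x hx a ha b hb => hg a b ε fun y =>
        h x y (fun h => hx h.1) (a, y) (b, y) ha rfl hb rfl⟩)
    (fun g hg => bd hY g fun F hF ε hε =>
      let ⟨_, D, _, hD, h⟩ := key _ 𝒳.diag F hF ε hε
      ⟨D, hD, fun y hy a ha b hb => hg a b ε fun x =>
        h x y (fun h => hy h.2) (x, a) (x, b) rfl ha rfl hb⟩)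
    (fun E hE F hF => ⟨1, key E hE F hF 1 one_pos⟩)
  exact ⟨_, ⟨_, ⟨E, hE, F, hF, subset_rfl⟩, a, subset_rfl⟩, M, h⟩

end Pool.Agent.Results.MP_bddfa7_gt.Product
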